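import Pool.Agent.N869.GK.StmM
import Pool.Agent.N364.GK.FACT

/-!
# Project GK (helper869), part M-FACTM (helper49): factorisation over the systems, data for every copy

Port of the file of helper364.
-/

set_option autoImplicit false
set_option linter.unusedSectionVars false

open scoped Classical

namespace Pool.Agent.N49.GK

open Finset
open Pool.Agent.N869.GK (Gr Par Dc MS Sp Qs PZ rs rd cp Xl row om sn)
open Pool.Agent.N364.GK (sn_sum Xl_sub term_sub mem_rd mem_Sp mem_cp mem_PZ rs_rd MS_rd)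

theorem t_FACTM : Pool.Agent.N869.GK.M.S_FACTM := by
  intro r R I ι _ _ _ D T c lab N Y hY
  refine ⟨?_, fun a => MS_rd (hY a)⟩
  have hsub : ∀ a, Y a ⊆ Sp (cp c a) := fun a => (hY a).1
  have hOne : ∀ a, Pool.Agent.N869.GK.M.One (fun x : {x // c x = a} => D x.1)
        (fun i : {i // i ∈ T a} => lab i.1) (fun i j => N i.1 j.1)
      (rd c a (Y a)) = ∑ p ∈ (univ ×ˢ (Fintype.piFinset fun _ : {i // i ∈ T a} =>
        rd c a (Y a))).filter (fun p : ({x // c x = a} → Fin 2 → Gr r) ×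
          ({i // i ∈ T a} → Dc {x // c x = a}) =>
          Pool.Agent.N869.GK.M.XW (fun x : {x // c x = a} => D x.1)
            (fun i : {i // i ∈ T a} => lab i.1) (fun _ => univ) p.1 p.2),
        sn (Pool.Agent.N869.GK.M.Ex (fun x : {x // c x = a} => D x.1)
          (fun i : {i // i ∈ T a} => lab i.1) (fun i j => N i.1 j.1) (fun _ => univ)
          p.1 p.2) := by
    intro a
    unfold Pool.Agent.N869.GK.M.One
    rw [sum_filter, sum_product]
    refine sum_congr (Finset.ext fun x => ⟨fun _ => @mem_univ _ (_) x,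
      fun _ => @mem_univ _ (_) x⟩) fun s _ => ?_
    rw [sum_filter]
    refine sum_congr ?_ (fun y _ => rfl)
    ext y
    simp only [Fintype.mem_piFinset]
  have hL : ∑ s : ι → Fin 2 → Gr r, ∑ ζ ∈ (Fintype.piFinset fun i => PZ c Y fun a => i ∈ T a).filter
      (fun ζ : R → Dc ι => Pool.Agent.N869.GK.M.XW D lab (fun x => T (c x)) s ζ),
      sn (Pool.Agent.N869.GK.M.Ex D lab N (fun x => T (c x)) s ζ) =
      ∑ p ∈ (univ ×ˢ (Fintype.piFinset fun i => PZ c Y fun a => i ∈ T a)).filter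
        (fun p : (ι → Fin 2 → Gr r) × (R → Dc ι) =>
          Pool.Agent.N869.GK.M.XW D lab (fun x => T (c x)) p.1 p.2),
        sn (Pool.Agent.N869.GK.M.Ex D lab N (fun x => T (c x)) p.1 p.2) := by
    rw [sum_filter, sum_product]
    refine sum_congr rfl fun s _ => ?_
    rw [sum_filter]
  rw [hL]
  simp_rw [hOne]
  rw [prod_univ_sum]
  refine Finset.sum_bij'
    (fun (p : (ι → Fin 2 → Gr r) × (R → Dc ι)) _ => fun a =>
      ((fun x : {x // c x = a} => p.1 x.1),
        (fun (i : {i // i ∈ T a}) (x : {x // c x = a}) => p.2 i.1 x.1)))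
    (fun q _ => ((fun x => (q (c x)).1 ⟨x, rfl⟩),
      (fun i x => if h : i ∈ T (c x) then (q (c x)).2 ⟨i, h⟩ ⟨x, rfl⟩ else 0))) ?_ ?_ ?_ ?_ ?_
  · rintro ⟨s, ζ⟩ hp
    obtain ⟨hp1, hp2⟩ := mem_filter.1 hp
    have hζ := Fintype.mem_piFinset.1 (mem_product.1 hp1).2
    refine Fintype.mem_piFinset.2 fun a => mem_filter.2 ⟨mem_product.2 ⟨mem_univ _,
      Fintype.mem_piFinset.2 fun i => ?_⟩, ?_⟩
    · exact (rs_rd (hsub a)).1 ((mem_PZ.1 (hζ i.1)).2 a i.2)
    · rintro ⟨x, rfl⟩
      have h1 := hp2 x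
      change Xl (fun i : {i // i ∈ T (c x)} => lab i.1) univ (s x) (fun i => (ζ i.1 x).1) ∈ (D x).W
      rw [Xl_sub lab (T (c x)) (s x) (fun i => (ζ i x).1)]
      exact h1
  · intro q hq
    have hq' := fun a => mem_filter.1 (Fintype.mem_piFinset.1 hq a)
    refine mem_filter.2 ⟨mem_product.2 ⟨mem_univ _, Fintype.mem_piFinset.2 fun i =>
      mem_PZ.2 ⟨?_, ?_⟩⟩, ?_⟩
    · intro x hx
      exact dif_neg hx
    · intro a ha
      rw [rs_rd (hsub a)]
      have h1 := Fintype.mem_piFinset.1 (mem_product.1 (hq' a).1).2 ⟨i, ha⟩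
      convert h1 using 1
      funext x
      obtain ⟨x, rfl⟩ := x
      exact dif_pos ha
    · intro x
      have h1 := (hq' (c x)).2 ⟨x, rfl⟩
      change Xl (fun i : {i // i ∈ T (c x)} => lab i.1) univ _ _ ∈ (D x).W at h1
      change Xl lab (T (c x)) ((q (c x)).1 ⟨x, rfl⟩) _ ∈ (D x).W
      rw [← Xl_sub lab (T (c x))]
      convert h1 using 2
      funext i
      dsimp only
      rw [dif_pos i.2]
  · rintro ⟨s, ζ⟩ hp
    obtain ⟨hp1, hp2⟩ := mem_filter.1 hp
    have hζ := Fintype.mem_piFinset.1 (mem_product.1 hp1).2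
    refine Prod.ext rfl ?_
    funext i x
    by_cases h : i ∈ T (c x)
    · exact dif_pos h
    · exact (dif_neg h).trans ((mem_PZ.1 (hζ i)).1 x h).symm
  · intro q hq
    funext a
    refine Prod.ext ?_ ?_
    · funext x
      obtain ⟨x, rfl⟩ := x
      rfl
    · funext i x
      obtain ⟨x, rfl⟩ := x
      exact dif_pos i.2
  · rintro ⟨s, ζ⟩ hp
    have h1 : Pool.Agent.N869.GK.M.Ex D lab N (fun x => T (c x)) s ζ =
        ∑ a, Pool.Agent.N869.GK.M.Ex (fun x : {x // c x = a} => D x.1)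
        (fun i : {i // i ∈ T a} => lab i.1)
        (fun i j => N i.1 j.1) (fun _ => univ) (fun x : {x // c x = a} => s x.1)
        (fun (i : {i // i ∈ T a}) (x : {x // c x = a}) => ζ i.1 x.1) := by
      unfold Pool.Agent.N869.GK.M.Ex
      rw [← Fintype.sum_fiberwise c]
      refine sum_congr rfl fun a _ => sum_congr rfl fun x _ => ?_
      obtain ⟨x, rfl⟩ := x
      exact (term_sub (D x) lab N (T (c x)) (s x) (fun j => (ζ j x).1) (fun i => (ζ i x).2)).symm
    change sn (Pool.Agent.N869.GK.M.Ex D lab N (fun x => T (c x)) s ζ) = _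
    rw [h1, sn_sum]

end Pool.Agent.N49.GK
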